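import Pool.Agent.helper88.T8.Spec
import Pool.Agent.helper11.T5.TR
import Pool.Agent.helper11.T5.SWP

set_option autoImplicit false

/-!
# Row t8:SX8 of MP_16912e_nt: the symmetric tuples of a class lie in one class
-/

namespace Pool.Agent.T8

open Finset NumberField Pool.Agent.helper3.FT Pool.Agent.helper47.RA Pool.Agent.T5 Pool.Agent.T6 Pool.Agent.T7
open scoped nonZeroDivisors

theorem SX8_prod (S : Finset ℕ) (a : ℕ → ℕ) (z : ℤ) (hS : ∀ p ∈ S, p.Prime) (h : ∀ p ∈ S, ((p ^ a p : ℕ) : ℤ) ∣ z) :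
    ((∏ p ∈ S, p ^ a p : ℕ) : ℤ) ∣ z := by
  rw [Nat.cast_prod]
  refine Finset.prod_dvd_of_coprime ?_ h
  intro p hp q hq hpq
  show IsCoprime ((p ^ a p : ℕ) : ℤ) ((q ^ a q : ℕ) : ℤ)
  rw [Nat.isCoprime_iff_coprime]
  exact Nat.Coprime.pow _ _ ((Nat.coprime_primes (hS p hp) (hS q hq)).2 hpq)

theorem SX8_rr {t : Tpl} (ht : IsT t) : RR' (swp t) = -RR t := by
  have h1 := (SWP TR).1 t ht
  have h2 := TR (swp t) h1.1
  have h3 := TR t ht
  have h4 : ((t.1.2 : ℕ) : ℤ) * RR' (swp t) = (-t.2.1) ^ 2 - lam (swp t) * (t.1.1 : ℤ) ^ 2 := h2.2.2.1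
  rw [h1.2.1] at h4
  have h5 : ((t.1.2 : ℕ) : ℤ) * (RR' (swp t) + RR t) = 0 := by
    have := h3.2.1
    linear_combination h4 + this
  have h6 : ((t.1.2 : ℕ) : ℤ) ≠ 0 := by
    have := ht.k1
    positivity
  have h7 := (mul_eq_zero.1 h5).resolve_left h6
  linarith

/-- the main congruence: a modulus prime to `n` -/
theorem SX8_cong {t s : Tpl} (ht : IsT t) (hs : IsT s) (hts : t.1 = s.1) (f : ℤ) (hf : IsCoprime f (t.1.1 : ℤ)) (hm : f ∣ t.2.1 - s.2.1) (hg : f ∣ t.2.2.1 - s.2.2.1)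
    (hR : f ∣ RR t - RR s) : f ∣ RR' t - RR' s := by
  have h1 := TR t ht
  have h2 := TR s hs
  rw [← hts] at h2
  obtain ⟨a1, a2, a3, -⟩ := h1
  obtain ⟨b1, b2, b3, -⟩ := h2
  have hZ : f ∣ t.2.2.2 - s.2.2.2 := by
    have e1 : f ∣ (t.1.1 : ℤ) ^ 2 * (t.2.2.2 - s.2.2.2) := by
      have e2 : (t.1.1 : ℤ) ^ 2 * (t.2.2.2 - s.2.2.2) = (t.1.2 : ℤ) * (RR t - RR s) + (t.2.1 - s.2.1) * (t.2.1 + s.2.1) := by
        linear_combination b2 - a2
      rw [e2]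
      exact dvd_add (hR.mul_left _) (hm.mul_right _)
    exact (hf.pow_right).dvd_of_dvd_mul_left e1
  have hL : f ∣ lam t - lam s := by
    have e1 : f ∣ (t.1.1 : ℤ) ^ 2 * (lam t - lam s) := by
      have e2 : (t.1.1 : ℤ) ^ 2 * (lam t - lam s) = (t.2.1 - s.2.1) * t.2.2.1 + s.2.1 * (t.2.2.1 - s.2.2.1) + (t.2.2.2 - s.2.2.2) * (t.1.2 : ℤ) ^ 2 := by
        linear_combination a1 - b1
      rw [e2]
      exact dvd_add (dvd_add (hm.mul_right _) (hg.mul_left _)) (hZ.mul_right _)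
    exact (hf.pow_right).dvd_of_dvd_mul_left e1
  have e1 : f ∣ (t.1.1 : ℤ) * (RR' t - RR' s) := by
    have e2 : (t.1.1 : ℤ) * (RR' t - RR' s) = (t.2.2.1 - s.2.2.1) * (t.2.2.1 + s.2.2.1) - (lam t - lam s) * (t.1.2 : ℤ) ^ 2 := by
      linear_combination a3 - b3
    rw [e2]
    exact dvd_sub (hg.mul_right _) (hL.mul_right _)
  exact hf.dvd_of_dvd_mul_left e1

theorem SX8 : SX8_stmt := by
  intro er es n k x her hes hn hk hnk hre hnker
  by_cases hex : ∃ t : Tpl, IsT t ∧ t.1 = (n, k) ∧ InC er es x t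
  swap
  · refine ⟨x, fun t ht h1 h2 => ?_⟩
    exact absurd ⟨t, ht, h1, h2⟩ hex
  obtain ⟨s, hs, hs1, hsC⟩ := hex
  -- the inverse of `n²` modulo `er²`
  have hco : IsCoprime ((n : ℤ) ^ 2) ((er : ℤ) ^ 2) := by
    refine IsCoprime.pow ?_
    rw [Nat.isCoprime_iff_coprime]
    exact Nat.Coprime.coprime_mul_right hnker
  obtain ⟨i, j, hij⟩ := hco
  refine ⟨⟨x.g, -x.m, RR (swp s), RR' (swp s), i * ((k : ℤ) ^ 2 * x.u - x.m * x.g), i * (x.m + (k : ℤ) ^ 2 * x.w), -(i * (x.g + (k : ℤ) ^ 2 * x.v))⟩, ?_⟩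
  intro t ht ht1 htC
  have hswp := (SWP TR).1 t ht
  have hswps := (SWP TR).1 s hs
  have hts : t.1 = s.1 := by rw [ht1, hs1]
  have htn : t.1.1 = n := by rw [ht1]
  have htk : t.1.2 = k := by rw [ht1]
  have hsn : s.1.1 = n := by rw [hs1]
  have hm2 : ((er * es : ℕ) : ℤ) ∣ t.2.1 - s.2.1 := by
    have := dvd_sub htC.hm hsC.hm
    rwa [sub_sub_sub_cancel_right] at this
  have hg2 : ((er * es : ℕ) : ℤ) ∣ t.2.2.1 - s.2.2.1 := by
    have := dvd_sub htC.hg hsC.hg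
    rwa [sub_sub_sub_cancel_right] at this
  have hc2 : (e1 es n : ℤ) ∣ RR t - RR s := by
    have h1 := htC.hc
    have h2 := hsC.hc
    rw [htn] at h1
    rw [hsn] at h2
    have := dvd_sub h1 h2
    rwa [sub_sub_sub_cancel_right] at this
  have hc2' : (e2 es n : ℤ) ∣ RR' t - RR' s := by
    have h1 := htC.hc'
    have h2 := hsC.hc'
    rw [htn] at h1
    rw [hsn] at h2
    have := dvd_sub h1 h2
    rwa [sub_sub_sub_cancel_right] at this
  have hpe : ∀ p ∈ es.primeFactors, ((p ^ es.factorization p : ℕ) : ℤ) ∣ ((er * es : ℕ) : ℤ) := by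
    intro p _
    rw [Int.natCast_dvd_natCast]
    exact (Nat.ordProj_dvd es p).mul_left _
  have hp1 : ∀ p ∈ es.primeFactors, ¬ p ∣ n → ((p ^ es.factorization p : ℕ) : ℤ) ∣ (e1 es n : ℤ) := by
    intro p hp hpn
    rw [Int.natCast_dvd_natCast]
    unfold e1
    exact Finset.dvd_prod_of_mem (fun p => p ^ es.factorization p) (Finset.mem_filter.2 ⟨hp, hpn⟩)
  have hp2 : ∀ p ∈ es.primeFactors, p ∣ n → ((p ^ es.factorization p : ℕ) : ℤ) ∣ (e2 es n : ℤ) := by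
    intro p hp hpn
    rw [Int.natCast_dvd_natCast]
    unfold e2
    exact Finset.dvd_prod_of_mem (fun p => p ^ es.factorization p) (Finset.mem_filter.2 ⟨hp, hpn⟩)
  refine ⟨htC.hg, ?_, ?_, ?_, ?_⟩
  · show ((er * es : ℕ) : ℤ) ∣ -t.2.1 - -x.m
    have := htC.hm
    rw [← dvd_neg] at this
    have e : -(t.2.1 - x.m) = -t.2.1 - -x.m := by ring
    rwa [e] at this
  · show (e1 es t.1.2 : ℤ) ∣ RR (swp t) - RR (swp s)
    rw [hswp.2.2.2, hswps.2.2.2, htk]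
    have e : -RR' t - -RR' s = -(RR' t - RR' s) := by ring
    rw [e, dvd_neg]
    unfold e1
    refine SX8_prod _ _ _ (fun p hp => Nat.prime_of_mem_primeFactors (Finset.mem_filter.1 hp).1) fun p hp => ?_
    obtain ⟨hp0, hpk⟩ := Finset.mem_filter.1 hp
    have hpp := Nat.prime_of_mem_primeFactors hp0
    by_cases hpn : p ∣ n
    · exact (hp2 p hp0 hpn).trans hc2'
    · refine SX8_cong ht hs hts _ ?_ ((hpe p hp0).trans hm2) ((hpe p hp0).trans hg2) ((hp1 p hp0 hpn).trans hc2)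
      rw [htn, Nat.isCoprime_iff_coprime]
      exact Nat.Coprime.pow_left _ ((Nat.Prime.coprime_iff_not_dvd hpp).2 hpn)
  · show (e2 es t.1.2 : ℤ) ∣ RR' (swp t) - RR' (swp s)
    rw [SX8_rr ht, SX8_rr hs, htk]
    have e : -RR t - -RR s = -(RR t - RR s) := by ring
    rw [e, dvd_neg]
    unfold e2
    refine SX8_prod _ _ _ (fun p hp => Nat.prime_of_mem_primeFactors (Finset.mem_filter.1 hp).1) fun p hp => ?_
    obtain ⟨hp0, hpk⟩ := Finset.mem_filter.1 hp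
    have hpp := Nat.prime_of_mem_primeFactors hp0
    have hpn : ¬ p ∣ n := by
      intro h
      have := Nat.dvd_gcd h hpk
      rw [Nat.Coprime.gcd_eq_one hnk] at this
      exact hpp.one_lt.ne' (Nat.dvd_one.1 this)
    exact (hp1 p hp0 hpn).trans hc2
  · show (er : ℤ) ^ 2 ∣ lam t - (i * ((k : ℤ) ^ 2 * x.u - x.m * x.g) + i * (x.m + (k : ℤ) ^ 2 * x.w) * t.2.2.1 + -(i * (x.g + (k : ℤ) ^ 2 * x.v)) * -t.2.1)
    have hL := (TR t ht).1
    rw [htn, htk] at hL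
    have h1 : (er : ℤ) ∣ t.2.1 - x.m := by
      have : (er : ℤ) ∣ ((er * es : ℕ) : ℤ) := by
        rw [Nat.cast_mul]
        exact dvd_mul_right _ _
      exact this.trans htC.hm
    have h2 : (er : ℤ) ∣ t.2.2.1 - x.g := by
      have : (er : ℤ) ∣ ((er * es : ℕ) : ℤ) := by
        rw [Nat.cast_mul]
        exact dvd_mul_right _ _
      exact this.trans htC.hg
    have h3 : (er : ℤ) ^ 2 ∣ (t.2.1 - x.m) * (t.2.2.1 - x.g) := by
      rw [sq]
      exact mul_dvd_mul h1 h2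
    have h4 := htC.hz
    have e : lam t - (i * ((k : ℤ) ^ 2 * x.u - x.m * x.g) + i * (x.m + (k : ℤ) ^ 2 * x.w) * t.2.2.1 + -(i * (x.g + (k : ℤ) ^ 2 * x.v)) * -t.2.1) =
        (er : ℤ) ^ 2 * (j * lam t) + ((t.2.1 - x.m) * (t.2.2.1 - x.g)) * i + (t.2.2.2 - (x.u + x.v * t.2.1 + x.w * t.2.2.1)) * (i * (k : ℤ) ^ 2) := by
      linear_combination (-(lam t)) * hij + i * hL
    rw [e]
    exact dvd_add (dvd_add (dvd_mul_right _ _) (h3.mul_right _)) (h4.mul_right _)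

end Pool.Agent.T8
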