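import Pool.Agent.helper88.T8.Spec

set_option autoImplicit false

/-!
# Row t8:TG8 of MP_16912e_nt: glueing of the local classes, for an abstract bound
-/

namespace Pool.Agent.T8

open Finset NumberField Pool.Agent.helper3.FT Pool.Agent.helper47.RA Pool.Agent.T5 Pool.Agent.T6 Pool.Agent.T7
open scoped nonZeroDivisors

theorem TG8_gg (C : ℝ) (p a : ℕ) : gg (48 * C) p a = 4 * gg (12 * C) p a := by
  unfold gg
  ring

theorem TG8_gg0 (C : ℝ) (hC : 0 ≤ C) (p a : ℕ) : 0 ≤ gg C p a := by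
  unfold gg
  positivity

theorem TG8_hh (C : ℝ) (p a : ℕ) : hh (48 * C) p a = 4 * hh (12 * C) p a := by
  unfold hh
  ring

theorem TG8_hh0 (C : ℝ) (hC : 0 ≤ C) (p a : ℕ) : 0 ≤ hh C p a := by
  unfold hh
  positivity

theorem TG8_card (LA LA' : ℕ → ℕ × ℕ → Finset Cls) (LB : ℕ → ℕ → ℕ × ℕ → Finset Cls)
    (hOK : LocOK LA LA' LB) (d : ℕ) (Sr Sy : Finset ℕ) (p : ℕ) (q : ℕ × ℕ) :
    (Pool.Agent.T6.Lp LA LA' LB d Sr Sy p q).card ≤ mc d Sr Sy p := by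
  unfold Pool.Agent.T6.Lp mc
  split_ifs
  · exact hOK.cA p q
  · exact hOK.cB p _ q
  · exact hOK.cA' p q

theorem TG8_mm (d : ℕ) (Sr Sy : Finset ℕ) (p : ℕ) (hp : p.Prime) :
    1 ≤ mr Sr p ∧ 1 ≤ ms d Sr Sy p ∧ ∃ j, mr Sr p * ms d Sr Sy p ∣ p ^ j := by
  have hp1 := hp.one_lt.le
  unfold mr ms
  split_ifs
  · exact ⟨hp1, le_rfl, 1, by rw [mul_one, pow_one]⟩
  · exact ⟨le_rfl, Nat.one_le_pow _ _ hp.pos, d.factorization p, by rw [one_mul]⟩
  · exact ⟨le_rfl, hp1, 1, by rw [one_mul, pow_one]⟩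

theorem TG8 (hTGM : TGM_stmt) (hTCH : TCH_stmt) (hTSP : TSP_stmt) (hTNA : TNA_stmt) (hTNB : TNB_stmt) (hTN8 : TN8_stmt) : TG8_stmt := by
  classical
  intro hLA hLB κ N Y C a b d hC ha hb hd hU F hF
  obtain ⟨LA, LA', LB, hOK⟩ := hTCH hLA hLB
  have hG0 : 0 ≤ ∏ p ∈ d.primeFactors, gg (12 * C) p (d.factorization p) :=
    Finset.prod_nonneg fun p _ => TG8_gg0 _ (by linarith) _ _
  have hG1 : ∏ p ∈ d.primeFactors, gg (48 * C) p (d.factorization p) =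
      4 ^ d.primeFactors.card * ∏ p ∈ d.primeFactors, gg (12 * C) p (d.factorization p) := by
    rw [← Finset.prod_const, ← Finset.prod_mul_distrib]
    exact Finset.prod_congr rfl fun p _ => TG8_gg C p _
  have hH0 : 0 ≤ ∏ p ∈ d.primeFactors, hh (12 * C) p (d.factorization p) :=
    Finset.prod_nonneg fun p _ => TG8_hh0 _ (by linarith) _ _
  have hH1 : ∏ p ∈ d.primeFactors, hh (48 * C) p (d.factorization p) =
      4 ^ d.primeFactors.card * ∏ p ∈ d.primeFactors, hh (12 * C) p (d.factorization p) := by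
    rw [← Finset.prod_const, ← Finset.prod_mul_distrib]
    exact Finset.prod_congr rfl fun p _ => TG8_hh C p _
  obtain ⟨B, hB⟩ : ∃ B, B = C * (a * ∏ p ∈ d.primeFactors, gg (12 * C) p (d.factorization p) +
      b * ∏ p ∈ d.primeFactors, hh (12 * C) p (d.factorization p)) := ⟨_, rfl⟩
  have hB0 : 0 ≤ B := by
    rw [hB]
    exact mul_nonneg (by linarith) (add_nonneg (mul_nonneg ha hG0) (mul_nonneg hb hH0))
  have hex : ∀ t ∈ F, ∃ q : Finset ℕ × Finset ℕ, (q.1 ⊆ d.primeFactors ∧ q.2 ⊆ d.primeFactors ∧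
      Disjoint q.1 q.2 ∧ (∀ p ∈ q.1, p ≠ 2 ∧ d.factorization p ≤ 2)) ∧
      (∀ p ∈ q.2, p ∣ t.1.1 * t.1.2) ∧ (∀ p ∈ q.1, ¬ p ∣ t.1.1 * t.1.2) ∧
      ∀ p ∈ d.primeFactors, ∃ x ∈ Pool.Agent.T6.Lp LA LA' LB d q.1 q.2 p t.1, InC (mr q.1 p) (ms d q.1 q.2 p) x t := by
    intro t ht
    obtain ⟨Sr, Sy, h1, h2, h3, h4, h5, h6, h7⟩ := hTSP LA LA' LB hOK d hd t (hF t ht).1.tt (hF t ht).2
    exact ⟨(Sr, Sy), ⟨h1, h2, h3, h4⟩, h5, h6, h7⟩
  choose! P hP using hex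
  have hfib : ∀ q ∈ d.primeFactors.powerset ×ˢ d.primeFactors.powerset,
      ((F.filter (fun t => P t = q)).card : ℝ) ≤ B := by
    rintro ⟨Sr, Sy⟩ -
    by_cases hemp : F.filter (fun t => P t = (Sr, Sy)) = ∅
    · rw [hemp, Finset.card_empty, Nat.cast_zero]
      exact hB0
    obtain ⟨t₀, ht₀⟩ := Finset.nonempty_iff_ne_empty.2 hemp
    rw [Finset.mem_filter] at ht₀
    obtain ⟨⟨hSr, hSy, hdis, hSr2⟩, -⟩ := hP t₀ ht₀.1
    rw [ht₀.2] at hSr hSy hdis hSr2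
    simp only at hSr hSy hdis hSr2
    obtain ⟨h1er, h1es, hcop, hle, hdvd, herSr, hsq, hysy, hypf⟩ := hTNA d Sr Sy hd hSr hSy hdis
    have hTNB' := hTNB C d Sr Sy hC hd hSr hSy hdis hSr2
    have hTN8' := hTN8 C d Sr Sy hC hd hSr hSy hdis hSr2
    have hS := fun q : ℕ × ℕ => hTGM d.primeFactors (mr Sr) (ms d Sr Sy) q.1 q.2
      (fun p => Pool.Agent.T6.Lp LA LA' LB d Sr Sy p q) (fun p hp => Nat.prime_of_mem_primeFactors hp)
      (fun p hp => TG8_mm d Sr Sy p (Nat.prime_of_mem_primeFactors hp))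
    choose S hS1 hS2 using hS
    have hScard : ∀ q, ((S q).card : ℝ) ≤ ∏ p ∈ d.primeFactors, (mc d Sr Sy p : ℝ) := by
      intro q
      have h := (hS1 q).trans (Finset.prod_le_prod' fun p _ => TG8_card LA LA' LB hOK d Sr Sy p q)
      have h' := (Nat.cast_le (α := ℝ)).2 h
      rw [Nat.cast_prod] at h'
      exact h'
    have hmain := hU (∏ p ∈ d.primeFactors, mr Sr p)
      (∏ p ∈ d.primeFactors, ms d Sr Sy p) (∏ p ∈ Sy, p)
      ⟨hd, h1er, h1es, hcop, Nat.le_of_dvd hd hdvd, hle, hsq, hysy⟩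
      (∏ p ∈ d.primeFactors, (mc d Sr Sy p : ℝ)) S hScard (F.filter (fun t => P t = (Sr, Sy))) (by
        intro t ht
        rw [Finset.mem_filter] at ht
        obtain ⟨-, h5, h6, h7⟩ := hP t ht.1
        rw [ht.2] at h5 h6 h7
        simp only at h5 h6 h7
        refine ⟨(hF t ht.1).1, trivial, ?_, ?_, ?_⟩
        · exact Finset.prod_primes_dvd _ (fun p hp => (Nat.prime_of_mem_primeFactors (hSy hp)).prime) h5
        · rw [herSr]
          refine Nat.Coprime.prod_right fun p hp => ?_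
          exact ((Nat.Prime.coprime_iff_not_dvd (Nat.prime_of_mem_primeFactors (hSr hp))).2 (h6 p hp)).symm
        · exact hS2 t.1 t rfl h7)
    refine hmain.trans ?_
    rw [hypf]
    have hC0 : 0 ≤ C := by linarith
    rw [hB]
    have e1 : C ^ (Sy.card + 1) * ((∏ p ∈ d.primeFactors, (mc d Sr Sy p : ℝ)) / ((∏ p ∈ Sy, p : ℕ) : ℝ)) *
        (a / (((∏ p ∈ d.primeFactors, mr Sr p : ℕ) : ℝ) ^ 4 * ((∏ p ∈ d.primeFactors, ms d Sr Sy p : ℕ) : ℝ) ^ 3) +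
          b / (((∏ p ∈ d.primeFactors, mr Sr p : ℕ) : ℝ) ^ 2 * ((∏ p ∈ d.primeFactors, ms d Sr Sy p : ℕ) : ℝ) ^ 2)) =
        C * (a * (C ^ Sy.card * ((∏ p ∈ d.primeFactors, (mc d Sr Sy p : ℝ)) /
          ((∏ p ∈ Sy, p : ℕ) : ℝ)) / (((∏ p ∈ d.primeFactors, mr Sr p : ℕ) : ℝ) ^ 4 *
          ((∏ p ∈ d.primeFactors, ms d Sr Sy p : ℕ) : ℝ) ^ 3)) + b * (C ^ Sy.card * ((∏ p ∈ d.primeFactors, (mc d Sr Sy p : ℝ)) /
          ((∏ p ∈ Sy, p : ℕ) : ℝ)) / (((∏ p ∈ d.primeFactors, mr Sr p : ℕ) : ℝ) ^ 2 *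
          ((∏ p ∈ d.primeFactors, ms d Sr Sy p : ℕ) : ℝ) ^ 2))) := by
      rw [pow_succ]
      ring
    rw [e1]
    push_cast
    refine mul_le_mul_of_nonneg_left (add_le_add ?_ ?_) hC0
    · exact mul_le_mul_of_nonneg_left hTNB' ha
    · exact mul_le_mul_of_nonneg_left hTN8' hb
  have hsum : (F.card : ℝ) = ∑ q ∈ d.primeFactors.powerset ×ˢ d.primeFactors.powerset,
      ((F.filter (fun t => P t = q)).card : ℝ) := by
    rw [← Nat.cast_sum]
    congr 1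
    refine Finset.card_eq_sum_card_fiberwise fun t ht => ?_
    obtain ⟨⟨h1, h2, -, -⟩, -⟩ := hP t ht
    simp only [Finset.coe_product, Set.mem_prod, Finset.mem_coe, Finset.mem_powerset]
    exact ⟨h1, h2⟩
  rw [hsum, hG1, hH1]
  refine (Finset.sum_le_sum hfib).trans ?_
  rw [Finset.sum_const, nsmul_eq_mul, Finset.card_product, Finset.card_powerset, hB]
  push_cast
  have h4 : (2 : ℝ) ^ d.primeFactors.card * 2 ^ d.primeFactors.card = 4 ^ d.primeFactors.card := by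
    rw [← mul_pow]
    norm_num
  rw [h4]
  refine le_of_eq ?_
  ring

end Pool.Agent.T8
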